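import Pool.Agent.Helper97.SF.Defs

/-!
# MP_c7a7e6_lc: local test systems

A test system consists of an interval partition of `ω` with a linked family of tests on every interval.
-/

namespace Pool.Agent.Helper97.SF

open Set Filter

/-- `A` and `B` agree below `m`. -/
def Ag (m : ℕ) (A B : ℕ → Bool) : Prop := ∀ k, k < m → A k = B k

theorem Ag.symm {m : ℕ} {A B : ℕ → Bool} (h : Ag m A B) : Ag m B A := fun k hk => (h k hk).symm

theorem Ag.trans {m : ℕ} {A B C : ℕ → Bool} (h : Ag m A B) (h' : Ag m B C) : Ag m A C :=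
  fun k hk => (h k hk).trans (h' k hk)

theorem Ag.mono {m m' : ℕ} {A B : ℕ → Bool} (h : Ag m A B) (hm : m' ≤ m) : Ag m' A B :=
  fun k hk => h k (lt_of_lt_of_le hk hm)

/-- Local test systems. -/
structure Sys where
  /-- the endpoints of the intervals -/
  m : ℕ → ℕ
  /-- the tests -/
  pass : ℕ → (ℕ → Bool) → Prop
  mono : StrictMono m
  up : ∀ n A B, (∀ k, m n ≤ k → k < m (n + 1) → A k = true → B k = true) → pass n A → pass n B
  link : ∀ n A B, pass n A → pass n B → ∃ k, m n ≤ k ∧ k < m (n + 1) ∧ A k = true ∧ B k = true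
  full : ∀ n, pass n (fun _ => true)

open Classical in
/-- The tests in the interval `[a, b)` which `A` fails. -/
noncomputable def fs (τ : Sys) (a b : ℕ) (A : ℕ → Bool) : Finset ℕ :=
  (Finset.range b).filter fun n => a ≤ τ.m n ∧ τ.m (n + 1) ≤ b ∧ ¬ τ.pass n A

/-- The number of tests in the interval `[a, b)` which `A` fails. -/
noncomputable def cnt (τ : Sys) (a b : ℕ) (A : ℕ → Bool) : ℕ := (fs τ a b A).card

theorem Sys.le_m (τ : Sys) (n : ℕ) : n ≤ τ.m n := τ.mono.le_apply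

theorem mem_fs {τ : Sys} {a b : ℕ} {A : ℕ → Bool} {n : ℕ} :
    n ∈ fs τ a b A ↔ a ≤ τ.m n ∧ τ.m (n + 1) ≤ b ∧ ¬ τ.pass n A := by
  simp only [fs, Finset.mem_filter, Finset.mem_range]
  constructor
  · rintro ⟨_, h⟩
    exact h
  · rintro h
    refine ⟨?_, h⟩
    have := τ.le_m (n + 1)
    omega

theorem pass_congr (τ : Sys) {n b : ℕ} {A B : ℕ → Bool} (h : Ag b A B) (hb : τ.m (n + 1) ≤ b) :
    τ.pass n A ↔ τ.pass n B :=
  ⟨τ.up n A B fun k _ hk hA => (h k (lt_of_lt_of_le hk hb)) ▸ hA,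
    τ.up n B A fun k _ hk hB => (h k (lt_of_lt_of_le hk hb)).symm ▸ hB⟩

theorem cnt_congr (τ : Sys) {a b : ℕ} {A B : ℕ → Bool} (h : Ag b A B) :
    cnt τ a b A = cnt τ a b B := by
  unfold cnt
  congr 1
  ext n
  rw [mem_fs, mem_fs]
  constructor
  · rintro ⟨h1, h2, h3⟩
    exact ⟨h1, h2, fun h4 => h3 ((pass_congr τ h h2).2 h4)⟩
  · rintro ⟨h1, h2, h3⟩
    exact ⟨h1, h2, fun h4 => h3 ((pass_congr τ h h2).1 h4)⟩

theorem cnt_mono (τ : Sys) {a a' b b' : ℕ} (ha : a' ≤ a) (hb : b ≤ b') (A : ℕ → Bool) :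
    cnt τ a b A ≤ cnt τ a' b' A := by
  apply Finset.card_le_card
  intro n hn
  rw [mem_fs] at hn ⊢
  exact ⟨ha.trans hn.1, hn.2.1.trans hb, hn.2.2⟩

theorem cnt_anti (τ : Sys) {a b : ℕ} {A B : ℕ → Bool}
    (h : ∀ k, a ≤ k → k < b → A k = true → B k = true) : cnt τ a b B ≤ cnt τ a b A := by
  apply Finset.card_le_card
  intro n hn
  rw [mem_fs] at hn ⊢
  refine ⟨hn.1, hn.2.1, fun hp => hn.2.2 (τ.up n A B (fun k hk1 hk2 => ?_) hp)⟩
  exact h k (hn.1.trans hk1) (lt_of_lt_of_le hk2 hn.2.1)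

theorem cnt_full (τ : Sys) (a b : ℕ) : cnt τ a b (fun _ => true) = 0 := by
  unfold cnt
  rw [Finset.card_eq_zero, Finset.eq_empty_iff_forall_notMem]
  intro n hn
  exact (mem_fs.1 hn).2.2 (τ.full n)

/-- `τ'` is coarser than `τ`, from test `t` on. -/
def RefT (t : ℕ) (τ τ' : Sys) : Prop :=
  ∀ j, t ≤ j → ∀ A,
    (¬ τ'.pass j A → ∃ n, τ'.m j ≤ τ.m n ∧ τ.m (n + 1) ≤ τ'.m (j + 1) ∧ ¬ τ.pass n A) ∧
    (τ'.pass j A → ∃ n, τ'.m j ≤ τ.m n ∧ τ.m (n + 1) ≤ τ'.m (j + 1) ∧ τ.pass n A)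

theorem refT_refl (τ : Sys) : RefT 0 τ τ := fun j _ _ =>
  ⟨fun h => ⟨j, le_rfl, le_rfl, h⟩, fun h => ⟨j, le_rfl, le_rfl, h⟩⟩

theorem refT_trans {τ τ' τ'' : Sys} {t t' : ℕ} (h : RefT t τ τ') (h' : RefT t' τ' τ'') :
    RefT (max t' (τ'.m t)) τ τ'' := by
  intro j hj A
  have hbig : ∀ n, τ''.m j ≤ τ'.m n → t ≤ n := by
    intro n hn
    have h1 : τ'.m t ≤ τ'.m n :=
      ((le_max_right _ _).trans hj).trans ((τ''.le_m j).trans hn)
    exact τ'.mono.le_iff_le.1 h1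
  have h1 := h' j ((le_max_left _ _).trans hj) A
  constructor
  · intro hA
    obtain ⟨n, hn1, hn2, hn3⟩ := h1.1 hA
    obtain ⟨i, hi1, hi2, hi3⟩ := (h n (hbig n hn1) A).1 hn3
    exact ⟨i, hn1.trans hi1, hi2.trans hn2, hi3⟩
  · intro hA
    obtain ⟨n, hn1, hn2, hn3⟩ := h1.2 hA
    obtain ⟨i, hi1, hi2, hi3⟩ := (h n (hbig n hn1) A).2 hn3
    exact ⟨i, hn1.trans hi1, hi2.trans hn2, hi3⟩

theorem cnt_le {τ τ' : Sys} {t : ℕ} (h : RefT t τ τ') {a b : ℕ} (ha : τ'.m t ≤ a)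
    (A : ℕ → Bool) : cnt τ' a b A ≤ cnt τ a b A := by
  classical
  have key : ∀ n, n ∈ fs τ' a b A →
      ∃ i, τ'.m n ≤ τ.m i ∧ τ.m (i + 1) ≤ τ'.m (n + 1) ∧ ¬ τ.pass i A := by
    intro n hn
    rw [mem_fs] at hn
    exact (h n (τ'.mono.le_iff_le.1 (ha.trans hn.1)) A).1 hn.2.2
  let f : ℕ → ℕ := fun n => if hn : n ∈ fs τ' a b A then (key n hn).choose else 0
  have hf : ∀ n, n ∈ fs τ' a b A →
      τ'.m n ≤ τ.m (f n) ∧ τ.m (f n + 1) ≤ τ'.m (n + 1) ∧ ¬ τ.pass (f n) A := by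
    intro n hn
    have e : f n = (key n hn).choose := dif_pos hn
    rw [e]
    exact (key n hn).choose_spec
  apply Finset.card_le_card_of_injOn f
  · intro n hn
    have h1 := hf n hn
    have h2 := mem_fs.1 (Finset.mem_coe.1 hn)
    rw [Finset.mem_coe, mem_fs]
    exact ⟨h2.1.trans h1.1, h1.2.1.trans h2.2.1, h1.2.2⟩
  · intro n hn n' hn' hnn
    have h1 := hf n hn
    have h2 := hf n' hn'
    have hlt := τ.mono (Nat.lt_succ_self (f n))
    rw [← hnn] at h2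
    have e1 : τ'.m n < τ'.m (n' + 1) := lt_of_le_of_lt h1.1 (lt_of_lt_of_le hlt h2.2.1)
    have e2 : τ'.m n' < τ'.m (n + 1) := lt_of_le_of_lt h2.1 (lt_of_lt_of_le hlt h1.2.1)
    have e3 := τ'.mono.lt_iff_lt.1 e1
    have e4 := τ'.mono.lt_iff_lt.1 e2
    omega

/-! ### The next system -/

/-- The number of failures which are allowed in the block `j`. -/
def cc (g : ℕ → ℕ) (j a : ℕ) : ℕ := max j (max a (g a))

/-- The endpoints of the blocks. -/
def pos (g : ℕ → ℕ) (σ : ℕ → Sys) (u : ℕ → ℕ) : ℕ → ℕ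
  | 0 => 0
  | j + 1 => max (pos g σ u j + 1) (max (g (cc g j (pos g σ u j)))
      (max ((σ j).m (pos g σ u j + 2 * cc g j (pos g σ u j) + 1)) (u (j + 1))))

section pos

variable (g : ℕ → ℕ) (σ : ℕ → Sys) (u : ℕ → ℕ)

theorem pos_lt (j : ℕ) : pos g σ u j < pos g σ u (j + 1) :=
  lt_of_lt_of_le (Nat.lt_succ_self _) (le_max_left _ _)

theorem pos_mono : StrictMono (pos g σ u) := strictMono_nat_of_lt_succ (pos_lt g σ u)

theorem pos_g (j : ℕ) : g (cc g j (pos g σ u j)) ≤ pos g σ u (j + 1) :=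
  (le_max_left _ _).trans (le_max_right _ _)

theorem pos_m (j : ℕ) :
    (σ j).m (pos g σ u j + 2 * cc g j (pos g σ u j) + 1) ≤ pos g σ u (j + 1) :=
  (le_max_left _ _).trans ((le_max_right _ _).trans (le_max_right _ _))

theorem pos_u (j : ℕ) : u (j + 1) ≤ pos g σ u (j + 1) :=
  (le_max_right _ _).trans ((le_max_right _ _).trans (le_max_right _ _))

theorem le_pos (j : ℕ) : j ≤ pos g σ u j := (pos_mono g σ u).le_apply

theorem inside (j n : ℕ) (h1 : pos g σ u j ≤ n)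
    (h2 : n ≤ pos g σ u j + 2 * cc g j (pos g σ u j)) :
    pos g σ u j ≤ (σ j).m n ∧ (σ j).m (n + 1) ≤ pos g σ u (j + 1) := by
  refine ⟨h1.trans ((σ j).le_m n), ?_⟩
  refine le_trans ?_ (pos_m g σ u j)
  exact (σ j).mono.monotone (by omega)

/-- The test system with the blocks `[pos j, pos (j + 1))`. -/
noncomputable def mk : Sys where
  m := pos g σ u
  pass j A := cnt (σ j) (pos g σ u j) (pos g σ u (j + 1)) A ≤ cc g j (pos g σ u j)
  mono := pos_mono g σ u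
  up j A B h hA := (cnt_anti (σ j) h).trans hA
  link j A B hA hB := by
    classical
    by_contra hcon
    have hsub : Finset.Icc (pos g σ u j) (pos g σ u j + 2 * cc g j (pos g σ u j)) ⊆
        fs (σ j) (pos g σ u j) (pos g σ u (j + 1)) A ∪
          fs (σ j) (pos g σ u j) (pos g σ u (j + 1)) B := by
      intro n hn
      rw [Finset.mem_Icc] at hn
      obtain ⟨h1, h2⟩ := inside g σ u j n hn.1 hn.2
      rw [Finset.mem_union, mem_fs, mem_fs]
      by_contra hno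
      push Not at hno
      have hpA : (σ j).pass n A := hno.1 h1 h2
      have hpB : (σ j).pass n B := hno.2 h1 h2
      obtain ⟨k, hk1, hk2, hk3, hk4⟩ := (σ j).link n A B hpA hpB
      exact hcon ⟨k, h1.trans hk1, lt_of_lt_of_le hk2 h2, hk3, hk4⟩
    have hcard := (Finset.card_le_card hsub).trans (Finset.card_union_le _ _)
    rw [Nat.card_Icc] at hcard
    change cnt (σ j) (pos g σ u j) (pos g σ u (j + 1)) A ≤ _ at hA
    change cnt (σ j) (pos g σ u j) (pos g σ u (j + 1)) B ≤ _ at hB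
    unfold cnt at hA hB
    omega
  full j := by
    rw [cnt_full]
    exact Nat.zero_le _

theorem mk_ref {τ : Sys} (t : ℕ → ℕ) (i : ℕ)
    (h : ∀ j, i ≤ j → RefT (t j) τ (σ j) ∧ (σ j).m (t j) ≤ u j) :
    RefT (max i 1) τ (mk g σ u) := by
  intro j hj A
  obtain ⟨h1, h2⟩ := h j ((le_max_left _ _).trans hj)
  have hj1 : 1 ≤ j := (le_max_right _ _).trans hj
  have hu : u j ≤ pos g σ u j := by
    obtain ⟨j', rfl⟩ := Nat.exists_eq_succ_of_ne_zero (by omega : j ≠ 0)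
    exact pos_u g σ u j'
  have hbig : ∀ n, pos g σ u j ≤ (σ j).m n → t j ≤ n := fun n hn =>
    (σ j).mono.le_iff_le.1 ((h2.trans hu).trans hn)
  constructor
  · intro hA
    change ¬ (cnt (σ j) (pos g σ u j) (pos g σ u (j + 1)) A ≤ cc g j (pos g σ u j)) at hA
    have hpos : 0 < (fs (σ j) (pos g σ u j) (pos g σ u (j + 1)) A).card := by
      unfold cnt at hA
      omega
    obtain ⟨n, hn⟩ := Finset.card_pos.1 hpos
    rw [mem_fs] at hn
    obtain ⟨i', hi1, hi2, hi3⟩ := (h1 n (hbig n hn.1) A).1 hn.2.2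
    exact ⟨i', hn.1.trans hi1, hi2.trans hn.2.1, hi3⟩
  · intro hA
    change cnt (σ j) (pos g σ u j) (pos g σ u (j + 1)) A ≤ cc g j (pos g σ u j) at hA
    obtain ⟨n, hn1, hn2, hn3⟩ : ∃ n, pos g σ u j ≤ (σ j).m n ∧
        (σ j).m (n + 1) ≤ pos g σ u (j + 1) ∧ (σ j).pass n A := by
      by_contra hcon
      push Not at hcon
      have hsub : Finset.Icc (pos g σ u j) (pos g σ u j + 2 * cc g j (pos g σ u j)) ⊆
          fs (σ j) (pos g σ u j) (pos g σ u (j + 1)) A := by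
        intro n hn
        rw [Finset.mem_Icc] at hn
        obtain ⟨h1, h2⟩ := inside g σ u j n hn.1 hn.2
        exact mem_fs.2 ⟨h1, h2, hcon n h1 h2⟩
      have hcard := Finset.card_le_card hsub
      rw [Nat.card_Icc] at hcard
      unfold cnt at hA
      omega
    obtain ⟨i', hi1, hi2, hi3⟩ := (h1 n (hbig n hn1) A).2 hn3
    exact ⟨i', hn1.trans hi1, hi2.trans hn2, hi3⟩

end pos

/-! ### Families given by a test system -/

/-- The family of all sets which pass almost all tests. -/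
def Fs (τ : Sys) : Set (ℕ → Bool) := {A | ∃ N, ∀ n, N ≤ n → τ.pass n A}

/-- The compact family of all sets which fail at most `k` tests. -/
def En (τ : Sys) (k : ℕ) : Set (ℕ → Bool) := {A | ∀ b, cnt τ 0 b A ≤ k}

theorem Fs_ref {τ τ' : Sys} {t : ℕ} (h : RefT t τ τ') : Fs τ ⊆ Fs τ' := by
  rintro A ⟨N, hN⟩
  refine ⟨max t (τ.m N), fun j hj => ?_⟩
  by_contra hA
  obtain ⟨n, hn1, hn2, hn3⟩ := (h j ((le_max_left _ _).trans hj) A).1 hA
  apply hn3
  apply hN
  apply τ.mono.le_iff_le.1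
  exact ((le_max_right _ _).trans hj).trans ((τ'.le_m j).trans hn1)

theorem En_sub_Fs (τ : Sys) (k : ℕ) : En τ k ⊆ Fs τ := by
  intro A hA
  by_contra hcon
  have hinf : ∀ N, ∃ n, N ≤ n ∧ ¬ τ.pass n A := by
    intro N
    by_contra h
    push Not at h
    exact hcon ⟨N, h⟩
  have key : ∀ r, ∃ b, r ≤ cnt τ 0 b A := by
    intro r
    induction r with
    | zero => exact ⟨0, Nat.zero_le _⟩
    | succ r ih =>
      obtain ⟨b, hb⟩ := ih
      obtain ⟨n, hn1, hn2⟩ := hinf b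
      refine ⟨τ.m (n + 1), ?_⟩
      have hlt : n < τ.m (n + 1) := τ.le_m (n + 1)
      have hsub : fs τ 0 b A ⊂ fs τ 0 (τ.m (n + 1)) A := by
        rw [Finset.ssubset_iff_of_subset]
        · refine ⟨n, mem_fs.2 ⟨Nat.zero_le _, le_rfl, hn2⟩, fun hmem => ?_⟩
          have := (mem_fs.1 hmem).2.1
          omega
        · intro i hi
          rw [mem_fs] at hi ⊢
          exact ⟨hi.1, hi.2.1.trans (hn1.trans hlt.le), hi.2.2⟩
      have := Finset.card_lt_card hsub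
      unfold cnt at hb ⊢
      omega
  obtain ⟨b, hb⟩ := key (k + 1)
  have := hA b
  omega

theorem cnt_le_add (τ : Sys) (t b : ℕ) (A : ℕ → Bool) :
    cnt τ 0 b A ≤ t + cnt τ (τ.m t) b A := by
  classical
  have hsub : fs τ 0 b A ⊆ Finset.range t ∪ fs τ (τ.m t) b A := by
    intro n hn
    rw [mem_fs] at hn
    rw [Finset.mem_union, Finset.mem_range, mem_fs]
    rcases lt_or_ge n t with h | h
    · exact Or.inl h
    · exact Or.inr ⟨τ.mono.monotone h, hn.2⟩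
  have h := (Finset.card_le_card hsub).trans (Finset.card_union_le _ _)
  rwa [Finset.card_range] at h

theorem En_ref {τ τ' : Sys} {t : ℕ} (h : RefT t τ τ') (k : ℕ) : En τ k ⊆ En τ' (t + k) := by
  intro A hA b
  refine (cnt_le_add τ' t b A).trans (Nat.add_le_add_left ?_ t)
  exact ((cnt_le h le_rfl A).trans (cnt_mono τ (Nat.zero_le _) le_rfl A)).trans (hA b)

theorem En_mono (τ : Sys) {k k' : ℕ} (h : k ≤ k') : En τ k ⊆ En τ k' := fun _ hA b => (hA b).trans h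

end Pool.Agent.Helper97.SF
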