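import Pool.Agent.Helper97.SF.Om
import Pool.Agent.Helper97.SF.Sys

/-!
# MP_c7a7e6_lc: the chain of test systems of length `ω₁`
-/

namespace Pool.Agent.Helper97.SF

open Set Filter

open Classical in
/-- An enumeration of the ordinals below `δ`. -/
noncomputable def en (δ : Om) : ℕ → Om := if h : ∃ b, b < δ then (exists_seq97 δ h).choose else fun _ => δ

open Classical in
/-- A cofinal sequence of ordinals below `δ`. -/
noncomputable def sq (δ : Om) : ℕ → Om :=
  if h : ∃ b, b < δ then (exists_seq97 δ h).choose_spec.choose else fun _ => δ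

theorem en_sq_spec {δ : Om} (h : ∃ b, b < δ) : (∀ j, en δ j < δ) ∧ (∀ j, sq δ j < δ) ∧
    (∀ i j, i ≤ j → en δ i ≤ sq δ j) ∧ ∀ β, β < δ → ∃ i, en δ i = β := by
  have e1 : en δ = (exists_seq97 δ h).choose := dif_pos h
  have e2 : sq δ = (exists_seq97 δ h).choose_spec.choose := dif_pos h
  rw [e1, e2]
  exact (exists_seq97 δ h).choose_spec.choose_spec

/-- The first system. -/
def base : Sys where
  m n := n
  pass n A := A n = true
  mono := strictMono_id
  up n _ _ h hA := h n le_rfl (Nat.lt_succ_self n) hA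
  link n _ _ hA hB := ⟨n, le_rfl, Nat.lt_succ_self n, hA, hB⟩
  full _ := rfl

open Classical in
/-- A threshold. -/
noncomputable def thr (τ τ' : Sys) : ℕ := if h : ∃ t, RefT t τ τ' then h.choose else 0

theorem thr_spec {τ τ' : Sys} (h : ∃ t, RefT t τ τ') : RefT (thr τ τ') τ τ' := by
  have e : thr τ τ' = h.choose := dif_pos h
  rw [e]
  exact h.choose_spec

open Classical in
/-- One step of the recursion. -/
noncomputable def step (g : Om → ℕ → ℕ) (δ : Om) (prev : (β : Om) → β < δ → Sys) : Sys :=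
  if h : ∃ b, b < δ then
    mk (g δ) (fun j => prev (sq δ j) ((en_sq_spec h).2.1 j))
      (fun j => (Finset.range (j + 1)).sup fun i =>
        (prev (sq δ j) ((en_sq_spec h).2.1 j)).m
          (thr (prev (en δ i) ((en_sq_spec h).1 i)) (prev (sq δ j) ((en_sq_spec h).2.1 j))))
  else base

/-- The chain of test systems. -/
noncomputable def chain (g : Om → ℕ → ℕ) : Om → Sys :=
  (wellFounded_lt (α := Om)).fix (step g)

theorem chain_eq (g : Om → ℕ → ℕ) {δ : Om} (h : ∃ b, b < δ) :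
    chain g δ = mk (g δ) (fun j => chain g (sq δ j))
      (fun j => (Finset.range (j + 1)).sup fun i =>
        (chain g (sq δ j)).m (thr (chain g (en δ i)) (chain g (sq δ j)))) := by
  unfold chain
  rw [WellFounded.fix_eq]
  unfold step
  rw [dif_pos h]

theorem chain_ref (g : Om → ℕ → ℕ) : ∀ δ β : Om, β < δ →
    ∃ t, RefT t (chain g β) (chain g δ) := by
  intro δ
  induction δ using (wellFounded_lt (α := Om)).induction with
  | _ δ ih =>
    intro β hβ
    have h : ∃ b, b < δ := ⟨β, hβ⟩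
    obtain ⟨h1, h2, h3, h4⟩ := en_sq_spec h
    obtain ⟨i, rfl⟩ := h4 β hβ
    rw [chain_eq g h]
    refine ⟨max i 1, mk_ref (g δ) _ _ (fun j => thr (chain g (en δ i)) (chain g (sq δ j))) i ?_⟩
    intro j hj
    constructor
    · apply thr_spec
      rcases (h3 i j hj).lt_or_eq with h5 | h5
      · exact ih (sq δ j) (h2 j) (en δ i) h5
      · rw [h5]
        exact ⟨0, refT_refl _⟩
    · exact Finset.le_sup (f := fun i =>
        (chain g (sq δ j)).m (thr (chain g (en δ i)) (chain g (sq δ j))))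
        (Finset.mem_range.2 (by omega))

theorem chain_ref' (g : Om → ℕ → ℕ) {β δ : Om} (h : β ≤ δ) :
    ∃ t, RefT t (chain g β) (chain g δ) := by
  rcases h.lt_or_eq with h | h
  · exact chain_ref g δ β h
  · rw [h]
    exact ⟨0, refT_refl _⟩

/-- The semifilter. -/
def Fam (g : Om → ℕ → ℕ) : Set (ℕ → Bool) := {A | ∃ γ, A ∈ Fs (chain g γ)}

theorem Fs_chain_mono (g : Om → ℕ → ℕ) {β δ : Om} (h : β ≤ δ) :
    Fs (chain g β) ⊆ Fs (chain g δ) := by
  obtain ⟨t, ht⟩ := chain_ref' g h
  exact Fs_ref ht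

theorem Fam_linked (g : Om → ℕ → ℕ) {A B : ℕ → Bool} (hA : A ∈ Fam g) (hB : B ∈ Fam g) (r : ℕ) :
    ∃ k, r ≤ k ∧ A k = true ∧ B k = true := by
  obtain ⟨γ, hγ⟩ := hA
  obtain ⟨γ', hγ'⟩ := hB
  obtain ⟨N, hN⟩ := Fs_chain_mono g (le_max_left γ γ') hγ
  obtain ⟨N', hN'⟩ := Fs_chain_mono g (le_max_right γ γ') hγ'
  obtain ⟨k, hk1, hk2, hk3, hk4⟩ := (chain g (max γ γ')).link (max r (max N N')) A B
    (hN _ ((le_max_left _ _).trans (le_max_right _ _)))
    (hN' _ ((le_max_right _ _).trans (le_max_right _ _)))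
  exact ⟨k, (le_max_left _ _).trans (((chain g (max γ γ')).le_m _).trans hk1), hk3, hk4⟩

theorem Fam_semifilter (g : Om → ℕ → ℕ) : IsSemifilter (Fam g) where
  nonempty := by
    refine ⟨fun _ => true, Classical.arbitrary Om, 0, fun n _ => ?_⟩
    exact (chain g _).full n
  inf A hA r := by
    obtain ⟨k, hk1, hk2, _⟩ := Fam_linked g hA hA r
    exact ⟨k, hk1, hk2⟩
  up := by
    rintro A ⟨γ, N, hN⟩ B ⟨r, hr⟩
    refine ⟨γ, max N r, fun n hn => ?_⟩
    refine (chain g γ).up n A B (fun k hk _ hA => ?_) (hN n ((le_max_left _ _).trans hn))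
    exact hr k (((le_max_right _ _).trans hn).trans (((chain g γ).le_m n).trans hk)) hA

theorem Fam_sub_plus (g : Om → ℕ → ℕ) : Fam g ⊆ plus (Fam g) := by
  intro A hA hco
  obtain ⟨k, _, hk1, hk2⟩ := Fam_linked g hA hco 0
  unfold co at hk2
  rw [hk1] at hk2
  exact Bool.false_ne_true hk2

end Pool.Agent.Helper97.SF
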