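import Pool.Agent.Helper97.SF.Core

/-!
# MP_c7a7e6_lc: every compact subset of the semifilter is contained in one of the basic compact sets
-/

namespace Pool.Agent.Helper97.SF

open Set Filter

/-- The local statement guessed by the diamond. -/
def PP (g : Om → ℕ → ℕ) (L : Set (ℕ → Bool)) (δ : Om) (c b : ℕ) : Prop :=
  ∀ a, a ≤ c → ∀ j, j ≤ c → ∀ B ∈ L, ∃ A ∈ L, Ag a A B ∧ c < cnt (Sg g δ j) a b A

theorem PP_mono {g : Om → ℕ → ℕ} {L : Set (ℕ → Bool)} {δ : Om} {c b b' : ℕ} (h : PP g L δ c b)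
    (hb : b ≤ b') : PP g L δ c b' := by
  intro a ha j hj B hB
  obtain ⟨A, hA1, hA2, hA3⟩ := h a ha j hj B hB
  exact ⟨A, hA1, hA2, lt_of_lt_of_le hA3 (cnt_mono _ le_rfl hb A)⟩

/-- The set of all points which are not good. -/
def Bad (g : Om → ℕ → ℕ) (L : Set (ℕ → Bool)) (γ : Om) : Set (ℕ → Bool) :=
  {x | x ∈ L ∧ ∀ d, ¬ Good g L γ d x}

theorem isClosed_Bad (g : Om → ℕ → ℕ) {L : Set (ℕ → Bool)} (hL : IsClosed L) (γ : Om) :
    IsClosed (Bad g L γ) := by
  have e : Bad g L γ = L ∩ (⋃ d, {x | ∃ B ∈ {B | Good g L γ d B}, Ag d x B})ᶜ := by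
    ext x
    simp only [Bad, mem_ofPred_eq, mem_inter_iff, mem_compl_iff, mem_iUnion, not_exists]
    constructor
    · rintro ⟨h1, h2⟩
      refine ⟨h1, fun d => ?_⟩
      rintro B ⟨hB1, hB2⟩
      exact h2 d (hB1.congr hB2.symm)
    · rintro ⟨h1, h2⟩
      refine ⟨h1, fun d hd => ?_⟩
      exact h2 d x ⟨hd, fun _ _ => rfl⟩
  rw [e]
  exact hL.inter (isOpen_iUnion fun d => isOpen_cyl d _).isClosed_compl

theorem claimA {g : Om → ℕ → ℕ}
    (hdom : ∀ (f : ℕ → ℕ) (γ : Om), ∃ δ, γ < δ ∧ ∀ᶠ n in atTop, f n ≤ g δ n)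
    {L : Set (ℕ → Bool)} (hL : IsClosed L) {γ₀ : Om}
    (hγ₀ : ∀ γ d x, Good g L γ d x → Good g L γ₀ d x) {x : ℕ → Bool} (hx : x ∈ Bad g L γ₀)
    (d : ℕ) (γ : Om) (k : ℕ) : ∃ A ∈ Bad g L γ₀, Ag d A x ∧ A ∉ En (chain g γ) k := by
  classical
  by_contra hcon
  push Not at hcon
  -- move to a larger ordinal
  obtain ⟨t, ht⟩ := chain_ref' g (le_max_left γ γ₀)
  have h1 : ∀ A ∈ Bad g L γ₀, Ag d A x → A ∈ En (chain g (max γ γ₀)) (t + k) :=
    fun A hA hAx => En_ref ht k (hcon A hA hAx)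
  set γ₁ := max γ γ₀ with hγ₁
  -- the sets `K r`
  have hKc : ∀ r, ∃ fr, ∀ A ∈ L, Ag d A x → (∀ B ∈ Bad g L γ₀, Ag d B x → ¬ Ag r A B) →
      A ∈ En (chain g γ₁) fr := by
    intro r
    have hcl : IsClosed (L ∩ {A | Ag d A x} ∩
        {A | ∃ B ∈ {B | B ∈ Bad g L γ₀ ∧ Ag d B x}, Ag r A B}ᶜ) := by
      refine (hL.inter ?_).inter (isOpen_cyl r _).isClosed_compl
      rw [← isOpen_compl_iff]
      have e : ({A | Ag d A x} : Set (ℕ → Bool))ᶜ = {A | ∃ B ∈ {B | ¬ Ag d B x}, Ag d A B} := by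
        ext A
        simp only [mem_compl_iff, mem_ofPred_eq]
        constructor
        · intro h
          exact ⟨A, h, fun _ _ => rfl⟩
        · rintro ⟨B, hB1, hB2⟩ h
          exact hB1 (hB2.symm.trans h)
      rw [e]
      exact isOpen_cyl d _
    obtain ⟨fr, hfr⟩ := good_compact (g := g) (L := L) hcl.isCompact (γ := γ₁) (by
      rintro A ⟨⟨hA1, hA2⟩, hA3⟩
      by_contra hno
      push Not at hno
      apply hA3
      refine ⟨A, ⟨⟨hA1, fun d' hd' => ?_⟩, hA2⟩, fun _ _ => rfl⟩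
      exact hno d' (hd'.mono (le_max_right _ _)))
    refine ⟨fr, fun A hA1 hA2 hA3 => hfr A hA1 ⟨⟨hA1, hA2⟩, ?_⟩⟩
    rintro ⟨B, ⟨hB1, hB2⟩, hB3⟩
    exact hA3 B hB1 hB2 hB3
  choose f hf using hKc
  obtain ⟨δ, hδ1, hδ2⟩ := hdom (fun r => (Finset.range (r + 1)).sup f) γ₁
  obtain ⟨R, hR⟩ := eventually_atTop.1 hδ2
  obtain ⟨J0, hJ0⟩ := block_le g hδ1
  have hex : ∃ b, b < δ := ⟨γ₁, hδ1⟩
  set J := max (max J0 (t + k)) R with hJ
  have hJJ0 : J0 ≤ J := (le_max_left _ _).trans (le_max_left _ _)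
  have hJk : t + k ≤ J := (le_max_right _ _).trans (le_max_left _ _)
  have hJR : R ≤ J := le_max_right _ _
  -- the set `A` fails at most one test after `J`
  have key : ∀ A ∈ L, Ag d A x → ∃ js, ∀ j, J ≤ j → j ≠ js → (chain g δ).pass j A := by
    intro A hA hAx
    by_cases hAB : A ∈ Bad g L γ₀
    · refine ⟨0, fun j hj _ => ?_⟩
      rw [chain_pass g hex]
      have h2 := hJ0 j (hJJ0.trans hj) (Ps g δ (j + 1)) A
      have h3 := cnt_mono (chain g γ₁) (Nat.zero_le (Ps g δ j)) (le_refl (Ps g δ (j + 1))) A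
      have h4 := h1 A hAB hAx (Ps g δ (j + 1))
      have h5 := le_Cs g δ j
      omega
    · have hex2 : ∃ r, ∀ B ∈ Bad g L γ₀, Ag d B x → ¬ Ag r A B := by
        by_contra hno
        push Not at hno
        apply hAB
        apply mem_of_closed (isClosed_Bad g hL γ₀)
        intro r
        obtain ⟨B, hB1, _, hB3⟩ := hno r
        exact ⟨B, hB1, hB3⟩
      have hr1 := Nat.find_spec hex2
      have hr2 : ∀ r', r' < Nat.find hex2 → ∃ B ∈ Bad g L γ₀, Ag d B x ∧ Ag r' A B := by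
        intro r' hr'
        have := Nat.find_min hex2 hr'
        push Not at this
        exact this
      set r := Nat.find hex2 with hr
      have hr0 : r ≠ 0 := by
        intro h0
        apply hr1 x hx (fun _ _ => rfl)
        rw [h0]
        exact fun k hk => absurd hk (Nat.not_lt_zero k)
      obtain ⟨B, hB1, hB2, hB3⟩ := hr2 (r - 1) (by omega)
      have hAr := hf r A hA hAx hr1
      have hpass : ∀ j, J ≤ j → ¬ (Ps g δ j < r ∧ r ≤ Ps g δ (j + 1)) → (chain g δ).pass j A := by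
        intro j hj hno
        rw [chain_pass g hex]
        have h5 := le_Cs g δ j
        rcases lt_or_ge (Ps g δ j) r with h6 | h6
        · have h7 : Ps g δ (j + 1) ≤ r - 1 := by
            by_contra h8
            exact hno ⟨h6, by omega⟩
          rw [cnt_congr (Sg g δ j) (hB3.mono h7)]
          have h2 := hJ0 j (hJJ0.trans hj) (Ps g δ (j + 1)) B
          have h3 := cnt_mono (chain g γ₁) (Nat.zero_le (Ps g δ j)) (le_refl (Ps g δ (j + 1))) B
          have h4 := h1 B hB1 hB2 (Ps g δ (j + 1))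
          omega
        · have h2 := hJ0 j (hJJ0.trans hj) (Ps g δ (j + 1)) A
          have h3 := cnt_mono (chain g γ₁) (Nat.zero_le (Ps g δ j)) (le_refl (Ps g δ (j + 1))) A
          have h4 := hAr (Ps g δ (j + 1))
          have h7 : f r ≤ (Finset.range (Ps g δ j + 1)).sup f :=
            Finset.le_sup (Finset.mem_range.2 (by omega))
          have h8 := hR (Ps g δ j) ((hJR.trans hj).trans (le_Ps g δ j))
          have h9 := g_le_Cs g δ j
          omega
      by_cases hjs : ∃ js, Ps g δ js < r ∧ r ≤ Ps g δ (js + 1)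
      · obtain ⟨js, hjs1, hjs2⟩ := hjs
        refine ⟨js, fun j hj hne => hpass j hj ?_⟩
        rintro ⟨h6, h7⟩
        rcases lt_or_gt_of_ne hne with h8 | h8
        · have := (Ps_mono g δ).monotone (show j + 1 ≤ js by omega)
          omega
        · have := (Ps_mono g δ).monotone (show js + 1 ≤ j by omega)
          omega
      · exact ⟨0, fun j hj _ => hpass j hj fun h => hjs ⟨j, h⟩⟩
  apply hx.2 d
  apply hγ₀ δ
  refine ⟨J + 1, fun A hA hAx b => ?_⟩
  obtain ⟨js, hjs⟩ := key A hA hAx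
  have hsub : fs (chain g δ) 0 b A ⊆ Finset.range J ∪ {js} := by
    intro n hn
    rw [mem_fs] at hn
    rw [Finset.mem_union, Finset.mem_range, Finset.mem_singleton]
    by_contra hno
    push Not at hno
    exact hn.2.2 (hjs n hno.1 hno.2)
  have h := (Finset.card_le_card hsub).trans (Finset.card_union_le _ _)
  rw [Finset.card_range, Finset.card_singleton] at h
  exact h

theorem PP_exists {g : Om → ℕ → ℕ} {L : Set (ℕ → Bool)} {δ : Om}
    (hA : ∀ x ∈ L, ∀ d γ k, ∃ A ∈ L, Ag d A x ∧ A ∉ En (chain g γ) k) (c : ℕ) :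
    ∃ b, PP g L δ c b := by
  classical
  have h1 : ∀ p : Fin (c + 1) × Fin (c + 1) × (Fin c → Bool), ∃ b, ∀ B ∈ L,
      (∀ i : Fin c, B i = p.2.2 i) →
        ∃ A ∈ L, Ag p.1 A B ∧ c < cnt (Sg g δ p.2.1) p.1 b A := by
    rintro ⟨a, j, s⟩
    by_cases h : ∃ B0 ∈ L, ∀ i : Fin c, B0 i = s i
    · obtain ⟨B0, hB0, hB0s⟩ := h
      obtain ⟨A, hA1, hA2, hA3⟩ := hA B0 hB0 a (sq δ j) (a + c)
      have hA4 : ∃ b, (a : ℕ) + c < cnt (chain g (sq δ j)) 0 b A := by
        by_contra hno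
        push Not at hno
        exact hA3 hno
      obtain ⟨b, hb⟩ := hA4
      refine ⟨b, fun B hB hBs => ⟨A, hA1, ?_, ?_⟩⟩
      · intro k hk
        have hkc : k < c := by
          have := a.2
          simp only at hk
          omega
        rw [hA2 k hk, hB0s ⟨k, hkc⟩]
        exact (hBs ⟨k, hkc⟩).symm
      · have h2 := cnt_le_add (chain g (sq δ j)) a b A
        have h3 := cnt_mono (chain g (sq δ j)) ((chain g (sq δ j)).le_m a) (le_refl b) A
        change c < cnt (chain g (sq δ j)) a b A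
        omega
    · refine ⟨0, fun B hB hBs => ?_⟩
      exact (h ⟨B, hB, hBs⟩).elim
  choose b hb using h1
  refine ⟨Finset.univ.sup b, fun a ha j hj B hB => ?_⟩
  obtain ⟨A, hA1, hA2, hA3⟩ := hb (⟨a, by omega⟩, ⟨j, by omega⟩, fun i => B i) B hB (fun _ => rfl)
  refine ⟨A, hA1, hA2, lt_of_lt_of_le hA3 (cnt_mono _ le_rfl ?_ A)⟩
  exact Finset.le_sup (f := b) (Finset.mem_univ _)

theorem compact_sub (g : Om → ℕ → ℕ)
    (hdom : ∀ (f : ℕ → ℕ) (γ : Om), ∃ δ, γ < δ ∧ ∀ᶠ n in atTop, f n ≤ g δ n)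
    (hguess : ∀ L : Set (ℕ → Bool), ∃ δ : Om, (∃ b, b < δ) ∧
      ∀ᶠ c in atTop, (∃ b, PP g L δ c b) → ∃ b, b ≤ g δ c ∧ PP g L δ c b)
    (L : Set (ℕ → Bool)) (hL : IsClosed L) (hLF : L ⊆ Fam g) :
    ∃ γ k, L ⊆ En (chain g γ) k := by
  classical
  by_contra hcon
  obtain ⟨γ₀, hγ₀⟩ := good_stable g L
  have hne : (Bad g L γ₀).Nonempty := by
    by_contra hno
    rw [not_nonempty_iff_eq_empty] at hno
    apply hcon
    obtain ⟨k, hk⟩ := good_compact (g := g) (L := L) hL.isCompact (γ := γ₀) (by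
      intro x hx
      by_contra h
      push Not at h
      have hx2 : x ∈ Bad g L γ₀ := ⟨hx, h⟩
      rw [hno] at hx2
      exact hx2)
    exact ⟨γ₀, k, fun A hA => hk A hA hA⟩
  obtain ⟨δ, hex, hδ⟩ := hguess (Bad g L γ₀)
  obtain ⟨C, hC⟩ := eventually_atTop.1 hδ
  have hstep : ∀ j, C ≤ j → ∀ B ∈ Bad g L γ₀,
      ∃ A ∈ Bad g L γ₀, Ag (Ps g δ j) A B ∧ ¬ (chain g δ).pass j A := by
    intro j hj B hB
    obtain ⟨b, hb1, hb2⟩ := hC (Cs g δ j) (hj.trans (le_Cs g δ j))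
      (PP_exists (fun x hx d γ k => claimA hdom hL hγ₀ hx d γ k) _)
    obtain ⟨A, hA1, hA2, hA3⟩ := hb2 (Ps g δ j) (Ps_le_Cs g δ j) j (le_Cs g δ j) B hB
    refine ⟨A, hA1, hA2, ?_⟩
    rw [chain_pass g hex, not_le]
    exact lt_of_lt_of_le hA3 (cnt_mono _ le_rfl (hb1.trans (g_Cs_le g δ j)) A)
  -- the limit point
  obtain ⟨x0, hx0⟩ := hne
  choose! N hN1 hN2 hN3 using hstep
  let Y : ℕ → (ℕ → Bool) := fun i => Nat.rec x0 (fun i y => N (C + i) y) i
  have hY0 : Y 0 = x0 := rfl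
  have hYs : ∀ i, Y (i + 1) = N (C + i) (Y i) := fun _ => rfl
  have hYB : ∀ i, Y i ∈ Bad g L γ₀ := by
    intro i
    induction i with
    | zero => exact hx0
    | succ i ih =>
      rw [hYs]
      exact hN1 (C + i) (Nat.le_add_right _ _) _ ih
  have hYa : ∀ i, Ag (Ps g δ (C + i)) (Y (i + 1)) (Y i) := by
    intro i
    rw [hYs]
    exact hN2 (C + i) (Nat.le_add_right _ _) _ (hYB i)
  have hYf : ∀ i, ¬ (chain g δ).pass (C + i) (Y (i + 1)) := by
    intro i
    rw [hYs]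
    exact hN3 (C + i) (Nat.le_add_right _ _) _ (hYB i)
  have hYa2 : ∀ i e, Ag (Ps g δ (C + i)) (Y (i + e)) (Y i) := by
    intro i e
    induction e with
    | zero => exact fun _ _ => rfl
    | succ e ih =>
      have h1 := hYa (i + e)
      exact (h1.mono ((Ps_mono g δ).monotone (by omega))).trans ih
  let y : ℕ → Bool := fun k => Y (k + 1) k
  have hy : ∀ i, Ag (Ps g δ (C + i)) y (Y i) := by
    intro i k hk
    change Y (k + 1) k = Y i k
    rcases le_total i (k + 1) with h | h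
    · obtain ⟨e, he⟩ := Nat.exists_eq_add_of_le h
      have h1 := hYa2 i e
      rw [← he] at h1
      exact h1 k hk
    · obtain ⟨e, he⟩ := Nat.exists_eq_add_of_le h
      have h1 := hYa2 (k + 1) e
      rw [← he] at h1
      have h2 := le_Ps g δ (C + (k + 1))
      exact (h1 k (by omega)).symm
  have hyB : y ∈ Bad g L γ₀ := by
    apply mem_of_closed (isClosed_Bad g hL γ₀)
    intro r
    refine ⟨Y r, hYB r, (hy r).mono ?_⟩
    have := le_Ps g δ (C + r)
    omega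
  have hyf : ∀ j, C ≤ j → ¬ (chain g δ).pass j y := by
    intro j hj
    obtain ⟨i, rfl⟩ := Nat.exists_eq_add_of_le hj
    rw [pass_congr (chain g δ) (hy (i + 1)) (by rw [chain_m g hex]; exact le_rfl)]
    exact hYf i
  obtain ⟨γ, Nn, hNn⟩ := hLF hyB.1
  rcases le_or_gt γ δ with h | h
  · obtain ⟨M, hM⟩ := Fs_chain_mono g h ⟨Nn, hNn⟩
    exact hyf (max C M) (le_max_left _ _) (hM _ (le_max_right _ _))
  · obtain ⟨t, ht⟩ := chain_ref g γ δ h
    set j := max (max t Nn) ((chain g δ).m C) with hj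
    obtain ⟨n, hn1, _, hn3⟩ := (ht j ((le_max_left _ _).trans (le_max_left _ _)) y).2
      (hNn j ((le_max_right _ _).trans (le_max_left _ _)))
    apply hyf n _ hn3
    apply (chain g δ).mono.le_iff_le.1
    exact ((le_max_right _ _).trans ((chain g γ).le_m j)).trans hn1

end Pool.Agent.Helper97.SF
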