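import Pool.Agent.Helper97.SF.Sys

/-!
# MP_c7a7e6_lc: the Menger property in terms of sequences of compact sets
-/

namespace Pool.Agent.Helper97.SF

open Set Filter

theorem co_co (A : ℕ → Bool) : co (co A) = A := by
  funext k
  simp [co]

theorem continuous_co : Continuous co :=
  continuous_pi fun k => (continuous_of_discreteTopology (f := fun b : Bool => !b)).comp
    (continuous_apply k)

theorem isOpen_ag (m : ℕ) (B : ℕ → Bool) : IsOpen {A | Ag m A B} := by
  have e : {A | Ag m A B} = ⋂ k ∈ Finset.range m, (fun A : ℕ → Bool => A k) ⁻¹' {B k} := by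
    ext A
    simp [Ag]
  rw [e]
  exact isOpen_biInter_finset fun k _ => (isOpen_discrete {B k}).preimage (continuous_apply k)

theorem isOpen_cyl (m : ℕ) (L : Set (ℕ → Bool)) : IsOpen {A | ∃ B ∈ L, Ag m A B} := by
  have e : {A | ∃ B ∈ L, Ag m A B} = ⋃ B ∈ L, {A | Ag m A B} := by
    ext A
    simp
  rw [e]
  exact isOpen_biUnion fun B _ => isOpen_ag m B

theorem menger_of (F : Set (ℕ → Bool))
    (hM : ∀ L : ℕ → Set (ℕ → Bool), (∀ n, IsClosed (L n)) → (∀ n, L n ⊆ F) →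
      ∃ m : ℕ → ℕ, ∀ A, (∀ n, ∃ B ∈ L n, Ag (m n) A B) → A ∈ F) : Menger (plus F) := by
  intro U hU hcov
  let S : ℕ → Set (Set (ℕ → Bool)) := fun n =>
    {O | IsOpen O ∧ (Subtype.val ⁻¹' O : Set (plus F)) ∈ U n}
  let W : ℕ → Set (ℕ → Bool) := fun n => ⋃₀ S n
  have hW : ∀ n, IsOpen (W n) := fun n => isOpen_sUnion fun O hO => hO.1
  have hsub : ∀ n, ∀ x ∈ plus F, x ∈ W n := by
    intro n x hx
    have h1 : (⟨x, hx⟩ : plus F) ∈ ⋃₀ U n := by
      rw [hcov n]
      exact mem_univ _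
    obtain ⟨V, hV1, hV2⟩ := h1
    obtain ⟨O, hO1, hO2⟩ := isOpen_induced_iff.1 (hU n V hV1)
    refine ⟨O, ⟨hO1, ?_⟩, ?_⟩
    · rw [hO2]
      exact hV1
    · have h2 : (⟨x, hx⟩ : plus F) ∈ Subtype.val ⁻¹' O := by
        rw [hO2]
        exact hV2
      exact h2
  obtain ⟨m, hm⟩ := hM (fun n => {A | co A ∉ W n})
    (fun n => ((hW n).isClosed_compl).preimage continuous_co) (by
      intro n A hA
      by_contra hAF
      apply hA
      apply hsub n
      change co (co A) ∉ F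
      rwa [co_co])
  let K : ℕ → Set (ℕ → Bool) := fun n => {x | ¬ ∃ B ∈ {A | co A ∉ W n}, Ag (m n) (co x) B}
  have hK : ∀ n, IsCompact (K n) := by
    intro n
    have hcl : IsClosed (K n) := by
      have h1 := (isOpen_cyl (m n) {A | co A ∉ W n}).preimage continuous_co
      exact h1.isClosed_compl
    exact hcl.isCompact
  have hKW : ∀ n, K n ⊆ W n := by
    intro n x hx
    by_contra hxW
    apply hx
    refine ⟨co x, ?_, fun k _ => rfl⟩
    change co (co x) ∉ W n
    rwa [co_co]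
  have hfin : ∀ n, ∃ b' ⊆ S n, b'.Finite ∧ K n ⊆ ⋃ i ∈ b', id i := by
    intro n
    refine (hK n).elim_finite_subcover_image (fun O hO => hO.1) ?_
    intro x hx
    obtain ⟨O, hO, hxO⟩ := hKW n hx
    exact mem_biUnion hO hxO
  choose b hb1 hb2 hb3 using hfin
  refine ⟨fun n => (fun O => (Subtype.val ⁻¹' O : Set (plus F))) '' b n, fun n => ⟨?_, ?_⟩, ?_⟩
  · rintro V ⟨O, hO, rfl⟩
    exact (hb1 n hO).2
  · exact (hb2 n).image _
  · rw [eq_univ_iff_forall]
    rintro ⟨x, hx⟩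
    have h1 : ∃ n, x ∈ K n := by
      by_contra hcon
      push Not at hcon
      apply hx
      apply hm
      intro n
      exact not_not.1 (hcon n)
    obtain ⟨n, hn⟩ := h1
    obtain ⟨O, hO, hxO⟩ := mem_iUnion₂.1 (hb3 n hn)
    rw [mem_iUnion]
    exact ⟨n, Subtype.val ⁻¹' O, ⟨O, hO, rfl⟩, hxO⟩

end Pool.Agent.Helper97.SF
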