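import Pool.Agent.Helper97.SF.Chain
import Pool.Agent.Helper97.SF.MengerOf

/-!
# MP_c7a7e6_lc: compact subsets of the semifilter, and the Menger property
-/

namespace Pool.Agent.Helper97.SF

open Set Filter

/-- The `j`-th system used in the construction of the system `δ`. -/
noncomputable def Sg (g : Om → ℕ → ℕ) (δ : Om) (j : ℕ) : Sys := chain g (sq δ j)

/-- The lower bounds used in the construction. -/
noncomputable def Ug (g : Om → ℕ → ℕ) (δ : Om) (j : ℕ) : ℕ :=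
  (Finset.range (j + 1)).sup fun i =>
    (chain g (sq δ j)).m (thr (chain g (en δ i)) (chain g (sq δ j)))

/-- The endpoints of the intervals of the system `δ`. -/
noncomputable def Ps (g : Om → ℕ → ℕ) (δ : Om) : ℕ → ℕ := pos (g δ) (Sg g δ) (Ug g δ)

/-- The number of failures which are allowed in test `j` of the system `δ`. -/
noncomputable def Cs (g : Om → ℕ → ℕ) (δ : Om) (j : ℕ) : ℕ := cc (g δ) j (Ps g δ j)

theorem Ps_mono (g : Om → ℕ → ℕ) (δ : Om) : StrictMono (Ps g δ) := pos_mono _ _ _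

theorem le_Ps (g : Om → ℕ → ℕ) (δ : Om) (j : ℕ) : j ≤ Ps g δ j := le_pos _ _ _ j

theorem le_Cs (g : Om → ℕ → ℕ) (δ : Om) (j : ℕ) : j ≤ Cs g δ j := le_max_left _ _

theorem Ps_le_Cs (g : Om → ℕ → ℕ) (δ : Om) (j : ℕ) : Ps g δ j ≤ Cs g δ j :=
  (le_max_left _ _).trans (le_max_right _ _)

theorem g_le_Cs (g : Om → ℕ → ℕ) (δ : Om) (j : ℕ) : g δ (Ps g δ j) ≤ Cs g δ j :=
  (le_max_right _ _).trans (le_max_right _ _)

theorem g_Cs_le (g : Om → ℕ → ℕ) (δ : Om) (j : ℕ) : g δ (Cs g δ j) ≤ Ps g δ (j + 1) :=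
  pos_g _ _ _ j

theorem chain_pass (g : Om → ℕ → ℕ) {δ : Om} (h : ∃ b, b < δ) (j : ℕ) (A : ℕ → Bool) :
    (chain g δ).pass j A ↔ cnt (Sg g δ j) (Ps g δ j) (Ps g δ (j + 1)) A ≤ Cs g δ j := by
  rw [chain_eq g h]
  exact Iff.rfl

theorem chain_m (g : Om → ℕ → ℕ) {δ : Om} (h : ∃ b, b < δ) (j : ℕ) :
    (chain g δ).m j = Ps g δ j := by
  rw [chain_eq g h]
  rfl

theorem block_le (g : Om → ℕ → ℕ) {γ δ : Om} (h : γ < δ) :
    ∃ J, ∀ j, J ≤ j → ∀ b A, cnt (Sg g δ j) (Ps g δ j) b A ≤ cnt (chain g γ) (Ps g δ j) b A := by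
  obtain ⟨h1, h2, h3, h4⟩ := en_sq_spec ⟨γ, h⟩
  obtain ⟨i, rfl⟩ := h4 γ h
  refine ⟨i + 1, fun j hj b A => ?_⟩
  have href : ∃ t, RefT t (chain g (en δ i)) (chain g (sq δ j)) := chain_ref' g (h3 i j (by omega))
  refine cnt_le (thr_spec href) ?_ A
  have e1 : (chain g (sq δ j)).m (thr (chain g (en δ i)) (chain g (sq δ j))) ≤ Ug g δ j :=
    Finset.le_sup (f := fun i =>
        (chain g (sq δ j)).m (thr (chain g (en δ i)) (chain g (sq δ j))))
        (Finset.mem_range.2 (by omega))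
  obtain ⟨j', rfl⟩ := Nat.exists_eq_succ_of_ne_zero (by omega : j ≠ 0)
  exact e1.trans (pos_u _ _ _ j')

/-! ### Closed sets -/

theorem mem_of_closed {L : Set (ℕ → Bool)} (hL : IsClosed L) {y : ℕ → Bool}
    (h : ∀ r, ∃ B ∈ L, Ag r y B) : y ∈ L := by
  choose B hB1 hB2 using h
  refine hL.mem_of_tendsto (f := B) (b := atTop) ?_ (Eventually.of_forall hB1)
  rw [tendsto_pi_nhds]
  intro k
  refine tendsto_const_nhds.congr' ?_
  filter_upwards [eventually_gt_atTop k] with r hr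
  exact hB2 r k hr

theorem isClosed_En (τ : Sys) (k : ℕ) : IsClosed (En τ k) := by
  rw [← isOpen_compl_iff]
  have e : (En τ k)ᶜ = ⋃ b, {A | ∃ B ∈ {B | k < cnt τ 0 b B}, Ag b A B} := by
    ext A
    simp only [mem_compl_iff, mem_iUnion, mem_ofPred_eq]
    constructor
    · intro h
      by_contra hcon
      push Not at hcon
      apply h
      intro b
      by_contra hb
      exact hcon b A (not_le.1 hb) (fun _ _ => rfl)
    · rintro ⟨b, B, hB, hAB⟩ hA
      have h1 := hA b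
      rw [cnt_congr τ hAB] at h1
      omega
  rw [e]
  exact isOpen_iUnion fun b => isOpen_cyl b _

/-! ### From compact sets to the Menger property -/

theorem menger_of_compact (g : Om → ℕ → ℕ)
    (h : ∀ L : Set (ℕ → Bool), IsClosed L → L ⊆ Fam g → ∃ γ k, L ⊆ En (chain g γ) k) :
    Menger (plus (Fam g)) := by
  apply menger_of
  intro L hL hLF
  choose γ k hk using fun n => h (L n) (hL n) (hLF n)
  obtain ⟨γ', hγ'⟩ := bdd97 γ
  choose t ht using fun n => chain_ref g γ' (γ n) (hγ' n)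
  obtain ⟨δ, hδ⟩ := exists_gt97 γ'
  obtain ⟨J, hJ⟩ := block_le g hδ
  have hex : ∃ b, b < δ := ⟨γ', hδ⟩
  let q : ℕ → ℕ := fun n => (Finset.range (n + 1)).sup (fun i => t i + k i) + n
  have hq : StrictMono q := by
    apply strictMono_nat_of_lt_succ
    intro n
    have h1 : (Finset.range (n + 1)).sup (fun i => t i + k i) ≤
        (Finset.range (n + 1 + 1)).sup (fun i => t i + k i) :=
      Finset.sup_mono (Finset.range_mono (by omega))
    change _ + n < _ + (n + 1)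
    omega
  have hLq : ∀ n, L n ⊆ En (chain g γ') (q n) := by
    intro n
    refine ((hk n).trans (En_ref (ht n) (k n))).trans (En_mono _ ?_)
    have h1 : t n + k n ≤ (Finset.range (n + 1)).sup (fun i => t i + k i) :=
      Finset.le_sup (f := fun i => t i + k i) (Finset.mem_range.2 (by omega))
    exact h1.trans (Nat.le_add_right _ _)
  refine ⟨fun n => Ps g δ (q (n + 1)), fun A hA => ⟨δ, max J (q 0), fun j hj => ?_⟩⟩
  rw [chain_pass g hex]
  -- the right index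
  obtain ⟨n, hn1, hn2⟩ : ∃ n, q n ≤ j ∧ j < q (n + 1) := by
    by_contra hcon
    push Not at hcon
    have hall : ∀ n, q n ≤ j := by
      intro n
      induction n with
      | zero => exact (le_max_right _ _).trans hj
      | succ n ih => exact hcon n ih
    have h1 := hall (j + 1)
    have h2 := hq.le_apply (x := j + 1)
    omega
  obtain ⟨B, hB1, hB2⟩ := hA n
  have h1 : Ps g δ (j + 1) ≤ Ps g δ (q (n + 1)) := (Ps_mono g δ).monotone hn2
  rw [cnt_congr (Sg g δ j) (hB2.mono h1)]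
  have h2 := hJ j ((le_max_left _ _).trans hj) (Ps g δ (j + 1)) B
  have h3 := cnt_mono (chain g γ') (Nat.zero_le (Ps g δ j)) (le_refl (Ps g δ (j + 1))) B
  have h4 := hLq n hB1 (Ps g δ (j + 1))
  exact (h2.trans (h3.trans h4)).trans (hn1.trans (le_Cs g δ j))

/-! ### Good points -/

/-- The part of `L` in a cylinder is contained in one of the compact sets `En (chain g γ) k`. -/
def Good (g : Om → ℕ → ℕ) (L : Set (ℕ → Bool)) (γ : Om) (d : ℕ) (x : ℕ → Bool) : Prop :=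
  ∃ k, ∀ A ∈ L, Ag d A x → A ∈ En (chain g γ) k

section good

variable {g : Om → ℕ → ℕ} {L : Set (ℕ → Bool)}

theorem Good.mono {γ γ' : Om} (h : γ ≤ γ') {d : ℕ} {x : ℕ → Bool} (hx : Good g L γ d x) :
    Good g L γ' d x := by
  obtain ⟨k, hk⟩ := hx
  obtain ⟨t, ht⟩ := chain_ref' g h
  exact ⟨t + k, fun A hA hAx => En_ref ht k (hk A hA hAx)⟩

theorem Good.congr {γ : Om} {d : ℕ} {x y : ℕ → Bool} (hx : Good g L γ d x) (h : Ag d x y) :
    Good g L γ d y := by
  obtain ⟨k, hk⟩ := hx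
  exact ⟨k, fun A hA hAy => hk A hA (hAy.trans h.symm)⟩

theorem good_stable (g : Om → ℕ → ℕ) (L : Set (ℕ → Bool)) :
    ∃ γ₀, ∀ γ d x, Good g L γ d x → Good g L γ₀ d x := by
  classical
  have hc : ∀ p : Σ d : ℕ, (Fin d → Bool), ∃ γ : Om, ∀ (x : ℕ → Bool),
      (∀ i : Fin p.1, x i = p.2 i) → (∃ γ', Good g L γ' p.1 x) → Good g L γ p.1 x := by
    rintro ⟨d, s⟩
    by_cases h : ∃ (γ : Om) (x : ℕ → Bool), (∀ i : Fin d, x i = s i) ∧ Good g L γ d x
    · obtain ⟨γ, x, hx1, hx2⟩ := h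
      refine ⟨γ, fun y hy _ => hx2.congr fun i hi => ?_⟩
      rw [hx1 ⟨i, hi⟩, hy ⟨i, hi⟩]
    · refine ⟨Classical.arbitrary Om, fun y hy hy' => ?_⟩
      obtain ⟨γ', hγ'⟩ := hy'
      exact (h ⟨γ', y, hy, hγ'⟩).elim
  choose γ hγ using hc
  obtain ⟨γ₀, hγ₀⟩ := bdd_countable97 γ
  refine ⟨γ₀, fun γ' d x hx => ?_⟩
  exact (hγ ⟨d, fun i => x i⟩ x (fun _ => rfl) ⟨γ', hx⟩).mono (hγ₀ _).le

theorem good_compact {K : Set (ℕ → Bool)} (hK : IsCompact K) {γ : Om}
    (h : ∀ x ∈ K, ∃ d, Good g L γ d x) : ∃ k, ∀ A ∈ L, A ∈ K → A ∈ En (chain g γ) k := by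
  refine hK.induction_on (p := fun s => ∃ k, ∀ A ∈ L, A ∈ s → A ∈ En (chain g γ) k)
    ?_ ?_ ?_ ?_
  · exact ⟨0, fun A _ hA => hA.elim⟩
  · rintro s t hst ⟨k, hk⟩
    exact ⟨k, fun A hA hAs => hk A hA (hst hAs)⟩
  · rintro s t ⟨k, hk⟩ ⟨k', hk'⟩
    refine ⟨max k k', fun A hA hAs => ?_⟩
    rcases hAs with hAs | hAs
    · exact En_mono _ (le_max_left _ _) (hk A hA hAs)
    · exact En_mono _ (le_max_right _ _) (hk' A hA hAs)
  · intro x hx
    obtain ⟨d, k, hk⟩ := h x hx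
    refine ⟨{A | Ag d A x}, mem_nhdsWithin_of_mem_nhds ((isOpen_ag d x).mem_nhds ?_),
      k, fun A hA hAs => hk A hA hAs⟩
    exact fun _ _ => rfl

end good

end Pool.Agent.Helper97.SF
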