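import Mathlib

/-!
# MP_c7a7e6_lc: semifilters with a Menger coherent family.  Definitions

Subsets of `ω` are coded by their characteristic functions `ℕ → Bool` (the Cantor space with the product topology).
-/

namespace Pool.Agent.Helper97.SF

open Set Filter

/-- Almost inclusion `A ⊆* B`. -/
def AlmostSub (A B : ℕ → Bool) : Prop := ∃ n, ∀ k, n ≤ k → A k = true → B k = true

/-- `A` is infinite. -/
def Inf (A : ℕ → Bool) : Prop := ∀ n, ∃ k, n ≤ k ∧ A k = true

/-- The complement of `A`. -/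
def co (A : ℕ → Bool) : ℕ → Bool := fun k => !(A k)

/-- Semifilters: nonempty families of infinite subsets of `ω` closed under almost-supersets. -/
structure IsSemifilter (F : Set (ℕ → Bool)) : Prop where
  nonempty : F.Nonempty
  inf : ∀ A ∈ F, Inf A
  up : ∀ A ∈ F, ∀ B, AlmostSub A B → B ∈ F

/-- `F⁺`, the family of all `A` whose complement is not in `F`. -/
def plus (F : Set (ℕ → Bool)) : Set (ℕ → Bool) := {A | co A ∉ F}

/-- The Menger property. -/
def Menger (X : Type*) [TopologicalSpace X] : Prop :=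
  ∀ U : ℕ → Set (Set X), (∀ n, ∀ O ∈ U n, IsOpen O) → (∀ n, ⋃₀ U n = univ) →
    ∃ V : ℕ → Set (Set X), (∀ n, V n ⊆ U n ∧ (V n).Finite) ∧ ⋃ n, ⋃₀ V n = univ

/-- The ordinal `ω₁`. -/
abbrev Om : Type := (Cardinal.aleph 1).ord.ToType

/-- Closed unbounded subsets of `ω₁`. -/
def Club (S : Set Om) : Prop :=
  (∀ a, ∃ b ∈ S, a < b) ∧
    ∀ a, (∃ b, b < a) → (∀ b, b < a → ∃ c ∈ S, b < c ∧ c < a) → a ∈ S

/-- Stationary subsets of `ω₁`. -/
def Stationary (S : Set Om) : Prop := ∀ T, Club T → (S ∩ T).Nonempty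

/-- The parametrized diamond `♢(𝔡)` of Moore, Hrušák and Džamonja: for every sequence of Borel functions
`F δ : 2^δ → ω^ω` (`δ < ω₁`) there is `g : ω₁ → ω^ω` such that for every `f : ω₁ → 2` the set of all `δ` such that
`g δ` eventually dominates `F δ (f ↾ δ)` is stationary. -/
def DiamondD : Prop :=
  ∀ F : (δ : Om) → (Iio δ → Bool) → ℕ → ℕ, (∀ δ, Measurable (F δ)) →
    ∃ g : Om → ℕ → ℕ, ∀ f : Om → Bool,
      Stationary {δ | ∀ᶠ n in atTop, F δ (fun i => f i) n ≤ g δ n}

end Pool.Agent.Helper97.SF
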