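import Pool.Agent.Helper97.SF.Comp

/-!
# MP_c7a7e6_lc: the sequence `g` given by `♢(𝔡)`, and the main theorem
-/

namespace Pool.Agent.Helper97.SF

open Set Filter

/-- The codes. -/
abbrev Cd : Type := (ℕ × Finset ℕ) ⊕ ((ℕ × ℕ × Finset ℕ × ℕ) ⊕ (ℕ × ℕ))

instance : Nonempty Cd := ⟨Sum.inl (0, ∅)⟩

/-- The characteristic function of a finite set. -/
noncomputable def ch (s : Finset ℕ) : ℕ → Bool := fun k => decide (k ∈ s)

/-- The coded form of `PP`. -/
def PC {δ : Om} (h : ∃ b, b < δ) (x : Iio δ → Cd → Bool) (c b : ℕ) : Prop :=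
  ∀ a, a ≤ c → ∀ j, j ≤ c → ∀ s : Finset ℕ,
    x ⟨sq δ 0, (en_sq_spec h).2.1 0⟩ (Sum.inl (a, s)) = true →
    ∃ t : Finset ℕ, Ag a (ch t) (ch s) ∧
      x ⟨sq δ 0, (en_sq_spec h).2.1 0⟩ (Sum.inl (max a b, t)) = true ∧
      x ⟨sq δ j, (en_sq_spec h).2.1 j⟩ (Sum.inr (Sum.inl (a, b, t, c))) = true

open Classical in
/-- The functions to be dominated. -/
noncomputable def GG (δ : Om) (x : Iio δ → Cd → Bool) (c : ℕ) : ℕ :=
  if h : ∃ b, b < δ then
    max (sInf {b | PC h x c b})
      (sInf {k | x ⟨sq δ 0, (en_sq_spec h).2.1 0⟩ (Sum.inr (Sum.inr (c, k))) = true})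
  else 0

theorem measurable_sInf97 {α : Type*} [MeasurableSpace α] {p : α → ℕ → Prop}
    (hp : ∀ b, Measurable fun x => p x b) : Measurable fun x => sInf {b | p x b} := by
  apply measurable_of_Iic
  intro y
  have e : (fun x => sInf {b | p x b}) ⁻¹' Iic y =
      {x | (∃ b, b ≤ y ∧ p x b) ∨ ∀ b, ¬ p x b} := by
    ext x
    simp only [mem_preimage, mem_Iic, mem_ofPred_eq]
    constructor
    · intro h
      by_cases hne : ∃ b, p x b
      · exact Or.inl ⟨_, h, Nat.sInf_mem (s := {b | p x b}) hne⟩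
      · right
        intro b hb
        exact hne ⟨b, hb⟩
    · rintro (⟨b, hb1, hb2⟩ | h)
      · exact (Nat.sInf_le (show b ∈ {b | p x b} from hb2)).trans hb1
      · have e : {b | p x b} = ∅ := by
          ext b
          simp only [mem_ofPred_eq, mem_empty_iff_false, iff_false]
          exact h b
        rw [e, Nat.sInf_empty]
        exact Nat.zero_le _
  rw [e, measurableSet_setOfPred]
  refine Measurable.or ?_ ?_
  · exact Measurable.exists fun b => measurable_const.and (hp b)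
  · exact Measurable.forall fun b => (hp b).not

theorem measurable_coord97 {δ : Om} (β : Iio δ) (i : Cd) :
    Measurable fun x : Iio δ → Cd → Bool => x β i = true := by
  have h1 : Measurable fun x : Iio δ → Cd → Bool => x β i :=
    (measurable_pi_apply i).comp (measurable_pi_apply β)
  rw [← measurableSet_setOfPred]
  exact h1 (measurableSet_singleton true)

theorem measurable_GG97 (δ : Om) : Measurable (GG δ) := by
  classical
  refine measurable_pi_iff.2 fun c => ?_
  unfold GG
  by_cases h : ∃ b, b < δ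
  · simp only [dif_pos h]
    refine Measurable.max (measurable_sInf97 fun b => ?_) (measurable_sInf97 fun k => ?_)
    · unfold PC
      refine Measurable.forall fun a => Measurable.imp measurable_const ?_
      refine Measurable.forall fun j => Measurable.imp measurable_const ?_
      refine Measurable.forall fun s => Measurable.imp (measurable_coord97 _ _) ?_
      refine Measurable.exists fun t => measurable_const.and ?_
      exact (measurable_coord97 _ _).and (measurable_coord97 _ _)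
    · exact measurable_coord97 _ _
  · simp only [dif_neg h]
    exact measurable_const

open Classical in
/-- The code of a set `L` and a sequence of test systems. -/
noncomputable def dL (g : Om → ℕ → ℕ) (L : Set (ℕ → Bool)) (β : Om) : Cd → Bool
  | Sum.inl (m, s) => decide (∃ B ∈ L, Ag m B (ch s))
  | Sum.inr (Sum.inl (a, b, s, c)) => decide (c < cnt (chain g β) a b (ch s))
  | Sum.inr (Sum.inr _) => false

theorem ag_filter97 (m : ℕ) (A : ℕ → Bool) :
    Ag m A (ch ((Finset.range m).filter fun k => A k = true)) := by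
  intro k hk
  unfold ch
  cases hA : A k <;> simp [hA, hk]

theorem PC_iff (g : Om → ℕ → ℕ) (L : Set (ℕ → Bool)) {δ : Om} (h : ∃ b, b < δ) (c b : ℕ) :
    PC h (fun i => dL g L i) c b ↔ PP g L δ c b := by
  unfold PC PP
  simp only [dL, decide_eq_true_eq]
  constructor
  · intro H a ha j hj B hB
    obtain ⟨t, ht1, ⟨A, hA1, hA2⟩, ht3⟩ := H a ha j hj _ ⟨B, hB, ag_filter97 a B⟩
    refine ⟨A, hA1, ?_, ?_⟩
    · exact ((hA2.mono (le_max_left _ _)).trans ht1).trans (ag_filter97 a B).symm
    · unfold Sg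
      rw [cnt_congr _ (hA2.mono (le_max_right _ _))]
      exact ht3
  · rintro H a ha j hj s ⟨B, hB, hBs⟩
    obtain ⟨A, hA1, hA2, hA3⟩ := H a ha j hj B hB
    have h1 := ag_filter97 (max a b) A
    refine ⟨_, ?_, ⟨A, hA1, h1⟩, ?_⟩
    · exact ((h1.mono (le_max_left _ _)).symm.trans hA2).trans hBs
    · rw [← cnt_congr _ (h1.mono (le_max_right _ _))]
      exact hA3

theorem exists_g97 (hD : DiamondD) : ∃ g : Om → ℕ → ℕ,
    (∀ (f : ℕ → ℕ) (γ : Om), ∃ δ, γ < δ ∧ ∀ᶠ n in atTop, f n ≤ g δ n) ∧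
    (∀ L : Set (ℕ → Bool), ∃ δ : Om, (∃ b, b < δ) ∧
      ∀ᶠ c in atTop, (∃ b, PP g L δ c b) → ∃ b, b ≤ g δ c ∧ PP g L δ c b) := by
  classical
  obtain ⟨g, hg⟩ := diamond_coded97 hD GG measurable_GG97
  refine ⟨g, fun f γ => ?_, fun L => ?_⟩
  · let d : Om → Cd → Bool := fun _ i => match i with
      | Sum.inl _ => false
      | Sum.inr (Sum.inl _) => false
      | Sum.inr (Sum.inr (n, k)) => decide (f n ≤ k)
    obtain ⟨δ, hδ1, hδ2⟩ := hg d γ
    refine ⟨δ, hδ1, ?_⟩
    filter_upwards [hδ2] with n hn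
    refine le_trans ?_ hn
    have h : ∃ b, b < δ := ⟨γ, hδ1⟩
    unfold GG
    rw [dif_pos h]
    refine le_trans ?_ (le_max_right _ _)
    have hmem := Nat.sInf_mem (s := {k | d (sq δ 0) (Sum.inr (Sum.inr (n, k))) = true})
      ⟨f n, by simp [d]⟩
    have h1 : decide (f n ≤ sInf {k | d (sq δ 0) (Sum.inr (Sum.inr (n, k))) = true}) = true := hmem
    exact of_decide_eq_true h1
  · obtain ⟨δ, hδ1, hδ2⟩ := hg (dL g L) (Classical.arbitrary Om)
    have h : ∃ b, b < δ := ⟨_, hδ1⟩
    refine ⟨δ, h, ?_⟩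
    filter_upwards [hδ2] with c hc
    rintro ⟨b, hb⟩
    unfold GG at hc
    rw [dif_pos h] at hc
    have hne : {b | PC h (fun i => dL g L i) c b}.Nonempty := ⟨b, (PC_iff g L h c b).2 hb⟩
    refine ⟨_, (le_max_left _ _).trans hc, (PC_iff g L h c _).1 (Nat.sInf_mem hne)⟩

/-- The main theorem. -/
theorem main97 (hD : DiamondD) : ∃ F : Set (ℕ → Bool), IsSemifilter F ∧ F ⊆ plus F ∧
    Menger (plus F) := by
  obtain ⟨g, hdom, hguess⟩ := exists_g97 hD
  exact ⟨Fam g, Fam_semifilter g, Fam_sub_plus g,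
    menger_of_compact g fun L hL hLF => compact_sub g hdom hguess L hL hLF⟩

end Pool.Agent.Helper97.SF
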