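import Pool.Agent.Helper97.SF.Defs

/-!
# MP_c7a7e6_lc: `ω₁`, and the coding of sequences of reals in `♢(𝔡)`
-/

namespace Pool.Agent.Helper97.SF

open Set Filter

theorem mk_Om97 : Cardinal.mk Om = Cardinal.aleph 1 := by
  simp [Om]

theorem countable_Iio97 (a : Om) : (Iio a).Countable := by
  rw [← Cardinal.le_aleph0_iff_set_countable]
  have h : Cardinal.mk (Iio a) < Cardinal.aleph 1 := by
    have := Cardinal.mk_Iio_lt a (by simp [Om])
    rwa [mk_Om97] at this
  have h' : Cardinal.mk (Iio a) < Order.succ Cardinal.aleph0 := by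
    rw [Cardinal.succ_aleph0]
    exact h
  exact Order.lt_succ_iff.1 h'

theorem not_countable_Om97 : ¬ (univ : Set Om).Countable := by
  rw [← Cardinal.le_aleph0_iff_set_countable, Cardinal.mk_univ, mk_Om97, not_le]
  exact Cardinal.aleph0_lt_aleph_one

theorem bdd97 (s : ℕ → Om) : ∃ b, ∀ n, s n < b := by
  by_contra hcon
  push Not at hcon
  apply not_countable_Om97
  have h1 : (univ : Set Om) = ⋃ n, (Iio (s n) ∪ {s n}) := by
    ext b
    simp only [mem_univ, mem_iUnion, mem_union, mem_Iio, mem_singleton_iff, true_iff]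
    obtain ⟨n, hn⟩ := hcon b
    exact ⟨n, hn.lt_or_eq⟩
  rw [h1]
  exact countable_iUnion fun n => (countable_Iio97 _).union (countable_singleton _)

instance nonempty_Om97 : Nonempty Om := by
  by_contra h
  rw [not_nonempty_iff] at h
  apply not_countable_Om97
  rw [univ_eq_empty_iff.2 h]
  exact countable_empty

theorem exists_gt97 (a : Om) : ∃ b, a < b := by
  obtain ⟨b, hb⟩ := bdd97 fun _ => a
  exact ⟨b, hb 0⟩

/-- Countable families of ordinals given by a countable type. -/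
theorem bdd_countable97 {ι : Type*} [Countable ι] (s : ι → Om) : ∃ b, ∀ i, s i < b := by
  rcases isEmpty_or_nonempty ι with h | h
  · exact ⟨Classical.arbitrary Om, fun i => (h.false i).elim⟩
  · obtain ⟨e, he⟩ := exists_surjective_nat ι
    obtain ⟨b, hb⟩ := bdd97 fun n => s (e n)
    refine ⟨b, fun i => ?_⟩
    obtain ⟨n, rfl⟩ := he i
    exact hb n

theorem exists_equiv97 (ι : Type) [Countable ι] [Nonempty ι] : Nonempty (Om × ι ≃ Om) := by
  rw [← Cardinal.eq, Cardinal.mk_prod, Cardinal.lift_id, Cardinal.lift_id, mk_Om97]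
  apply Cardinal.mul_eq_left
  · exact (Cardinal.aleph0_lt_aleph_one).le
  · exact (Cardinal.mk_le_aleph0).trans (Cardinal.aleph0_lt_aleph_one).le
  · exact Cardinal.mk_ne_zero ι

/-- Closed unbounded sets of closure points. -/
theorem club_closure97 (γ : Om) {ι : Type} [Countable ι] (π : Om × ι → Om) :
    Club {δ | γ < δ ∧ ∀ β, β < δ → ∀ i, π (β, i) < δ} := by
  constructor
  · intro a
    -- one step
    have step : ∀ b : Om, ∃ b' : Om, b < b' ∧ ∀ β, β < b → ∀ i, π (β, i) < b' := by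
      intro b
      have hc : Countable (Iio b) := (countable_Iio97 b).to_subtype
      obtain ⟨b1, hb1⟩ := bdd_countable97 (fun q : Iio b × ι => π (q.1, q.2))
      obtain ⟨b2, hb2⟩ := exists_gt97 b
      exact ⟨max b1 b2, lt_max_of_lt_right hb2, fun β hβ i => lt_max_of_lt_left (hb1 (⟨β, hβ⟩, i))⟩
    choose S hS1 hS2 using step
    obtain ⟨a0, ha0⟩ : ∃ a0, max a γ < a0 := exists_gt97 _
    set u : ℕ → Om := fun n => S^[n] a0 with hu
    have hus : ∀ n, u (n + 1) = S (u n) := fun n => Function.iterate_succ_apply' S n a0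
    obtain ⟨B, hB⟩ := bdd97 u
    -- least upper bound
    have hne : {b : Om | ∀ n, u n < b}.Nonempty := ⟨B, hB⟩
    set δ := (wellFounded_lt (α := Om)).min _ hne with hδ
    have hδ1 : ∀ n, u n < δ := (wellFounded_lt (α := Om)).min_mem _ hne
    have hδ2 : ∀ b, b < δ → ∃ n, b ≤ u n := by
      intro b hb
      by_contra hcon
      push Not at hcon
      have hm : b ∈ {b : Om | ∀ n, u n < b} := hcon
      exact (wellFounded_lt (α := Om)).not_lt_min _ hm hb
    have h0 : u 0 < δ := hδ1 0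
    have hu0 : u 0 = a0 := rfl
    rw [hu0] at h0
    refine ⟨δ, ⟨lt_of_le_of_lt (le_max_right a γ) (ha0.trans h0), ?_⟩,
      lt_of_le_of_lt (le_max_left a γ) (ha0.trans h0)⟩
    intro β hβ i
    obtain ⟨n, hn⟩ := hδ2 β hβ
    have h1 : β < u (n + 1) := lt_of_le_of_lt hn (by rw [hus]; exact hS1 _)
    have h2 : π (β, i) < u (n + 2) := by
      have := hS2 (u (n + 1)) β h1 i
      rwa [← hus] at this
    exact h2.trans (hδ1 _)
  · rintro a ⟨b0, hb0⟩ h
    refine ⟨?_, ?_⟩
    · obtain ⟨c, hc, hc1, hc2⟩ := h b0 hb0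
      exact hc.1.trans hc2
    · intro β hβ i
      obtain ⟨c, hc, hc1, hc2⟩ := h β hβ
      exact (hc.2 β hc1 i).trans hc2

/-- The form of `♢(𝔡)` for sequences of reals. -/
theorem diamond_coded97 (hD : DiamondD) {ι : Type} [Countable ι] [Nonempty ι]
    (G : (δ : Om) → (Iio δ → ι → Bool) → ℕ → ℕ) (hG : ∀ δ, Measurable (G δ)) :
    ∃ g : Om → ℕ → ℕ, ∀ d : Om → ι → Bool, ∀ γ, ∃ δ, γ < δ ∧
      ∀ᶠ n in atTop, G δ (fun i => d i) n ≤ g δ n := by
  classical
  obtain ⟨π⟩ := exists_equiv97 ι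
  obtain ⟨g, hg⟩ := hD (fun δ f' => if hδ : ∀ β, β < δ → ∀ i, π (β, i) < δ then
    G δ (fun β i => f' ⟨π (β.1, i), hδ β.1 β.2 i⟩) else fun _ => 0) (by
      intro δ
      by_cases hδ : ∀ β, β < δ → ∀ i, π (β, i) < δ
      · simp only [dif_pos hδ]
        refine (hG δ).comp ?_
        refine measurable_pi_lambda _ fun β => measurable_pi_lambda _ fun i => ?_
        exact measurable_pi_apply _
      · simp only [dif_neg hδ]
        exact measurable_const)
  refine ⟨g, fun d γ => ?_⟩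
  obtain ⟨δ, hδ1, hδ2, hδ3⟩ := hg (fun α => d (π.symm α).1 (π.symm α).2) _
    (club_closure97 γ (fun q => π q))
  refine ⟨δ, hδ2, ?_⟩
  have hδ4 : ∀ β, β < δ → ∀ i, π (β, i) < δ := hδ3
  simp only [mem_ofPred_eq, dif_pos hδ4, Equiv.symm_apply_apply] at hδ1
  exact hδ1

/-- A sequence of smaller ordinals which is cofinal. -/
theorem exists_seq97 (δ : Om) (hδ : ∃ b, b < δ) :
    ∃ (e s : ℕ → Om), (∀ j, e j < δ) ∧ (∀ j, s j < δ) ∧ (∀ i j, i ≤ j → e i ≤ s j) ∧
      ∀ β, β < δ → ∃ i, e i = β := by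
  obtain ⟨b, hb⟩ := hδ
  have hc : Countable (Iio δ) := (countable_Iio97 δ).to_subtype
  have hn : Nonempty (Iio δ) := ⟨⟨b, hb⟩⟩
  obtain ⟨e, he⟩ := exists_surjective_nat (Iio δ)
  let s : ℕ → Om := fun j => (Finset.range (j + 1)).sup' ⟨0, by simp⟩ fun i => (e i : Om)
  refine ⟨fun i => e i, s, fun j => (e j).2, fun j => ?_, fun i j hij => ?_, fun β hβ => ?_⟩
  · exact (Finset.sup'_lt_iff _).2 fun i _ => (e i).2
  · exact Finset.le_sup' (fun i => (e i : Om)) (by simp; omega)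
  · obtain ⟨i, hi⟩ := he ⟨β, hβ⟩
    exact ⟨i, congrArg Subtype.val hi⟩

end Pool.Agent.Helper97.SF
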